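import Pool.Agent.Y94.R.Core
set_option autoImplicit false

/-!
The multiplicities of a composition, and the real coordinate `w` with the polynomial `G`,
`P = G ∘ w`: the orders of the poles of the functions that are real on `P ⁻¹ (T)` come from the
poles in the coordinate `w`.
-/

namespace Pool.Agent.J4.H9.PR

open Polynomial IntermediateField Filter Pool.Agent.Y94.R

open scoped ComplexConjugate

theorem sub_C_ne {w : ℂ[X]} (hw : 0 < w.natDegree) (c : ℂ) : w - C c ≠ 0 := by
  intro h
  rw [sub_eq_zero.1 h, natDegree_C] at hw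
  exact lt_irrefl _ hw

theorem comp_ne {w : ℂ[X]} (hw : 0 < w.natDegree) {V : ℂ[X]} (hV : V ≠ 0) : V.comp w ≠ 0 := by
  intro h
  rw [comp_eq_zero_iff] at h
  rcases h with h | h
  · exact hV h
  · rw [h.2, natDegree_C] at hw
    exact lt_irrefl _ hw

/-- the multiplicity of a point in the fibre of `w` -/
noncomputable def mw (w : ℂ[X]) (β : ℂ) : ℕ := rootMultiplicity β (w - C (w.eval β))

theorem mw_pos {w : ℂ[X]} (hw : 0 < w.natDegree) (β : ℂ) : 0 < mw w β := by
  refine (rootMultiplicity_pos (sub_C_ne hw _)).2 ?_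
  simp

/-- The multiplicity of a root of a composition. -/
theorem rootMultiplicity_comp' {w : ℂ[X]} (hw : 0 < w.natDegree) {V : ℂ[X]} (hV : V ≠ 0) (β : ℂ) :
    rootMultiplicity β (V.comp w) = mw w β * rootMultiplicity (w.eval β) V := by
  obtain ⟨V₁, hV₁, hV₁ω⟩ := exists_eq_pow_rootMultiplicity_mul_and_not_dvd V hV (w.eval β)
  have h3 : V.comp w = (w - C (w.eval β)) ^ rootMultiplicity (w.eval β) V * V₁.comp w := by
    have h4 := congrArg (fun q : ℂ[X] => q.comp w) hV₁
    simp only [mul_comp, pow_comp, sub_comp, X_comp, C_comp] at h4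
    exact h4
  have h5 : (V₁.comp w).eval β ≠ 0 := by
    rw [eval_comp]
    intro h
    exact hV₁ω (dvd_iff_isRoot.2 h)
  have h6 := comp_ne hw hV
  rw [h3] at h6 ⊢
  rw [rootMultiplicity_mul h6, rootMultiplicity_pow' (sub_C_ne hw _),
    rootMultiplicity_eq_zero (p := V₁.comp w) h5, add_zero, mul_comm]
  rfl

/-- The real coordinate `w` and the polynomial `G`. -/
theorem exists_coord' {P : ℂ[X]} (hP : 0 < P.natDegree) {T : Set ℝ} (hT : T.Infinite) :
    ∃ w G : ℂ[X], 0 < w.natDegree ∧ P = G.comp w ∧ G.map (starRingEnd ℂ) = G ∧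
      (∃ S : Set ℝ, S.Finite ∧ ∀ t ∈ T \ S, ∀ v : ℂ, G.eval v = (t : ℝ) → v.im = 0) ∧
      (∀ v : ℂ, (derivative G).eval v = 0 → v.im = 0) ∧
      (∀ A B : ℂ[X], IsCoprime A B → B ≠ 0 → RealOn P T A B → ∃ V : ℂ[X], V ≠ 0 ∧
        ∀ β : ℂ, rootMultiplicity β B = mw w β * rootMultiplicity (w.eval β) V) ∧
      (∀ A B : ℂ[X], IsCoprime A B → B ≠ 0 → RealOn P T A B → ∀ β : ℂ, (w.eval β).im = 0 →
        B.eval β ≠ 0 → ∃ ρ : ℝ, A.eval β = ρ * B.eval β) := by
  classical
  have hFne : (KF P T).NeBot := KF_neBot hP hT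
  have hFle := KF_le P T
  have hFK : ∀ᶠ b in KF P T, ∃ t ∈ T, P.eval b = (t : ℝ) :=
    (eventually_principal.2 fun b hb => hb).filter_mono inf_le_right
  obtain ⟨w, G, hw, hPG, hΘ, hwr⟩ := exists_real_coord hFle hP (by
    filter_upwards [hFK] with b ⟨t, _, hb⟩
    rw [hb, Complex.ofReal_im])
  have hPev : ∀ b, P.eval b = G.eval (w.eval b) := fun b => by rw [hPG, eval_comp]
  -- the real points
  obtain ⟨S, hSfin, hS⟩ : ∃ S : Set ℂ, S.Finite ∧
      ∀ b, (∃ t ∈ T, P.eval b = (t : ℝ)) → b ∉ S → (w.eval b).im = 0 := by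
    rw [KF, eventually_inf_principal, eventually_cofinite] at hwr
    refine ⟨_, hwr, fun b hb hbS => ?_⟩
    simp only [Set.mem_ofPred_eq, not_forall, not_exists] at hbS
    by_contra h
    exact hbS hb h
  set T' : Set ℝ := T \ ((fun b => (P.eval b).re) '' S) with hT'
  have hT'inf : T'.Infinite := hT.sdiff (hSfin.image _)
  have hroots : ∀ t ∈ T', ∀ v : ℂ, G.eval v = (t : ℝ) → v.im = 0 := by
    intro t ht v hv
    obtain ⟨b, hb⟩ := exists_eval_eq hw v
    have h1 : P.eval b = (t : ℝ) := by rw [hPev, hb, hv]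
    rw [← hb]
    refine hS b ⟨t, ht.1, h1⟩ fun hbS => ht.2 ⟨b, hbS, ?_⟩
    simp only [h1, Complex.ofReal_re]
  have hGdeg : 0 < G.natDegree := by
    have h1 := congrArg natDegree hPG
    rw [natDegree_comp] at h1
    by_contra h2
    rw [Nat.eq_zero_of_not_pos h2, zero_mul] at h1
    omega
  -- `G` is real
  have hGreal : G.map (starRingEnd ℂ) = G := by
    refine Polynomial.eq_of_infinite_eval_eq _ _ fun hfin => ?_
    refine hT'inf ((hfin.image fun v => (G.eval v).re).subset fun t ht => ?_)
    obtain ⟨v, hv⟩ := exists_eval_eq hGdeg (t : ℂ)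
    refine ⟨v, ?_, by simp only [hv, Complex.ofReal_re]⟩
    show (G.map (starRingEnd ℂ)).eval v = G.eval v
    rw [eval_conj_of_real G (hroots t ht v hv), hv, Complex.conj_ofReal]
  -- the critical points of `G` are real
  have hcrit : ∀ v : ℂ, (derivative G).eval v = 0 → v.im = 0 := by
    intro v hv
    obtain ⟨t, ht⟩ := hT'inf.nonempty
    have hd : derivative (G - C (t : ℂ)) = derivative G := by
      rw [derivative_sub, derivative_C, sub_zero]
    have hG' : derivative G ≠ 0 := by
      rw [Ne, derivative_eq_zero]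
      omega
    have h1 : 0 < (G - C (t : ℂ)).degree := by
      rw [← natDegree_pos_iff_degree_pos, natDegree_sub_C]
      exact hGdeg
    have h2 := rootSet_derivative_subset_convexHull_rootSet h1
    have h3 : v ∈ (derivative (G - C (t : ℂ))).rootSet ℂ := by
      rw [hd, mem_rootSet, coe_aeval_eq_eval]
      exact ⟨hG', hv⟩
    have h4 : convexHull ℝ ((G - C (t : ℂ)).rootSet ℂ) ⊆ {z : ℂ | z.im = 0} := by
      refine convexHull_min ?_ convex_real
      intro z hz
      rw [mem_rootSet, coe_aeval_eq_eval] at hz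
      refine hroots t ht z ?_
      have := hz.2
      rw [eval_sub, eval_C, sub_eq_zero] at this
      exact this
    exact h4 (h2 h3)
  refine ⟨w, G, hw, hPG, hGreal, ⟨_, hSfin.image _, hroots⟩, hcrit, ?_, ?_⟩
  · intro A B hco hB hreal
    obtain ⟨U, V, hUV, hV, hid⟩ := mem_adjoin_coprime (hΘ A B hB hreal)
    have hpoly : A * V.comp w = B * U.comp w := by
      refine ι_inj ?_
      rw [map_mul, map_mul, ← aeval_ι, ← aeval_ι, ← hid]
      have := ι_ne hB
      field_simp
    have hUVw : IsCoprime (U.comp w) (V.comp w) := by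
      obtain ⟨x, y, hxy⟩ := hUV
      refine ⟨x.comp w, y.comp w, ?_⟩
      have h1 := congrArg (fun q : ℂ[X] => q.comp w) hxy
      simp only [add_comp, mul_comp, one_comp] at h1
      exact h1
    have hVw : V.comp w ≠ 0 := comp_ne hw hV
    have h1 : B ∣ V.comp w := hco.symm.dvd_of_dvd_mul_left (by rw [hpoly]; exact dvd_mul_right _ _)
    have h2 : V.comp w ∣ B :=
      hUVw.symm.dvd_of_dvd_mul_right (by rw [← hpoly]; exact dvd_mul_left _ _)
    refine ⟨V, hV, fun β => ?_⟩
    rw [← rootMultiplicity_comp' hw hV]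
    refine le_antisymm ?_ ?_
    · obtain ⟨q, hq⟩ := h1
      have h3 : B * q ≠ 0 := by rw [← hq]; exact hVw
      rw [hq, rootMultiplicity_mul h3]
      omega
    · obtain ⟨q, hq⟩ := h2
      have h3 : V.comp w * q ≠ 0 := by rw [← hq]; exact hB
      rw [hq, rootMultiplicity_mul h3]
      omega
  · intro A B hco hB hreal β hω0 hBβ
    obtain ⟨U, V, hUV, hV, hid⟩ := mem_adjoin_coprime (hΘ A B hB hreal)
    have hpoly : A * V.comp w = B * U.comp w := by
      refine ι_inj ?_
      rw [map_mul, map_mul, ← aeval_ι, ← aeval_ι, ← hid]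
      have := ι_ne hB
      field_simp
    -- `U / V` is real
    have hreal2 : U * V.map (starRingEnd ℂ) = U.map (starRingEnd ℂ) * V := by
      refine Polynomial.eq_of_infinite_eval_eq _ _ fun hfin => ?_
      have h1 : ∀ᶠ b in KF P T, w.eval b ∈ {x | (U * V.map (starRingEnd ℂ)).eval x =
          (U.map (starRingEnd ℂ) * V).eval x} := by
        filter_upwards [hreal, hwr, eventually_ne hFle hB] with b ⟨ρ, hρ⟩ hb hBb
        show (U * V.map (starRingEnd ℂ)).eval (w.eval b) =
          (U.map (starRingEnd ℂ) * V).eval (w.eval b)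
        have h2 := congrArg (Polynomial.eval b) hpoly
        rw [eval_mul, eval_mul, eval_comp, eval_comp, hρ] at h2
        have h3 : U.eval (w.eval b) = ρ * V.eval (w.eval b) := by
          refine mul_left_cancel₀ hBb ?_
          linear_combination -h2
        rw [eval_mul, eval_mul, eval_conj_of_real _ hb, eval_conj_of_real _ hb, h3, map_mul,
          Complex.conj_ofReal]
        ring
      have h2 : {b | w.eval b ∈ {x | (U * V.map (starRingEnd ℂ)).eval x =
          (U.map (starRingEnd ℂ) * V).eval x}}.Finite := by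
        refine Set.Finite.preimage' hfin fun v _ => ?_
        have h3 : w - C v ≠ 0 := sub_C_ne hw v
        refine (w - C v).roots.toFinset.finite_toSet.subset fun b hb => ?_
        have hb' : w.eval b = v := hb
        simp [h3, hb']
      have h3 : ∀ᶠ b in KF P T, w.eval b ∉ {x | (U * V.map (starRingEnd ℂ)).eval x =
          (U.map (starRingEnd ℂ) * V).eval x} := by
        refine Filter.Eventually.filter_mono hFle ?_
        rw [eventually_cofinite]
        refine h2.subset fun b hb => ?_
        by_contra h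
        exact hb h
      obtain ⟨b, hb1, hb2⟩ := (h1.and h3).exists
      exact hb2 hb1
    have h4 := congrArg (Polynomial.eval (w.eval β)) hreal2
    rw [eval_mul, eval_mul, eval_conj_of_real _ hω0, eval_conj_of_real _ hω0] at h4
    have h5 := congrArg (Polynomial.eval β) hpoly
    rw [eval_mul, eval_mul, eval_comp, eval_comp] at h5
    have hVω : V.eval (w.eval β) ≠ 0 := by
      intro h
      rw [h, mul_zero] at h5
      exact isCoprime_eval hUV ((mul_eq_zero.1 h5.symm).resolve_left hBβ) h
    obtain ⟨ρ, hρ⟩ : ∃ ρ : ℝ, U.eval (w.eval β) / V.eval (w.eval β) = ρ := by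
      refine ⟨_, Complex.ext rfl (Complex.conj_eq_iff_im.1 ?_)⟩
      rw [map_div₀, div_eq_div_iff ((_root_.map_ne_zero _).2 hVω) hVω]
      exact h4.symm
    refine ⟨ρ, ?_⟩
    rw [← hρ]
    field_simp
    linear_combination h5

end Pool.Agent.J4.H9.PR
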