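import Pool.Agent.J4.H9.PR.Ord
set_option autoImplicit false

/-!
The dimension of the annihilator is at most the number of the critical points of `G` whose critical
values are not in `[-1, 1]`.
-/

namespace Pool.Agent.J4.H9.PR

open Polynomial Filter Module Pool.Agent.Y94.R

open scoped ComplexConjugate Topology

variable {D P Q r w G : ℂ[X]} {m : ℕ} (γ : Fin m → Lp D)

theorem dvd_iff_mult {r p : ℂ[X]} (hr : r ≠ 0) :
    r ∣ p ↔ p = 0 ∨ ∀ β, rootMultiplicity β r ≤ rootMultiplicity β p := by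
  classical
  rcases eq_or_ne p 0 with rfl | hp
  · simp
  rw [IsAlgClosed.dvd_iff_roots_le_roots hr hp, Multiset.le_iff_count]
  simp [hp, count_roots]

/-- the vectors `c` in the annihilator such that `R V(w)` is divisible by `r` -/
noncomputable def Nv (P Q r : ℂ[X]) (b₀ : ℂ) (w V : ℂ[X]) : Submodule ℝ (Fin m → ℝ) where
  carrier := {c | c ∈ Ann (Spc γ P) (vec γ P Q) b₀ ∧ r ∣ Rc γ r c * V.comp w}
  zero_mem' := by
    refine ⟨Submodule.zero_mem _, ?_⟩
    have h := Rc_smul (r := r) γ 0 0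
    rw [zero_smul, Complex.ofReal_zero, C_0, zero_mul] at h
    rw [h, zero_mul]
    exact dvd_zero r
  add_mem' := by
    rintro c c' ⟨h1, h2⟩ ⟨h3, h4⟩
    refine ⟨Submodule.add_mem _ h1 h3, ?_⟩
    rw [Rc_add, add_mul]
    exact dvd_add h2 h4
  smul_mem' := by
    rintro a c ⟨h1, h2⟩
    refine ⟨Submodule.smul_mem _ a h1, ?_⟩
    rw [Rc_smul, mul_assoc]
    exact h2.mul_left _

theorem mem_Nv {b₀ : ℂ} {V : ℂ[X]} {c : Fin m → ℝ} : c ∈ Nv γ P Q r b₀ w V ↔
    c ∈ Ann (Spc γ P) (vec γ P Q) b₀ ∧ r ∣ Rc γ r c * V.comp w := Iff.rfl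

/-- Membership in terms of multiplicities. -/
theorem mem_Nv_iff (hr : r ≠ 0) (hw : 0 < w.natDegree) {b₀ : ℂ} {V : ℂ[X]} (hV : V ≠ 0)
    {c : Fin m → ℝ} : c ∈ Nv γ P Q r b₀ w V ↔ c ∈ Ann (Spc γ P) (vec γ P Q) b₀ ∧
      (Rc γ r c = 0 ∨ ∀ β, rootMultiplicity β r ≤
        rootMultiplicity β (Rc γ r c) + mw w β * rootMultiplicity (w.eval β) V) := by
  rw [mem_Nv, dvd_iff_mult hr]
  refine and_congr_right fun _ => ?_
  have hVw := comp_ne hw hV
  rcases eq_or_ne (Rc γ r c) 0 with h0 | h0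
  · simp [h0]
  have h1 : Rc γ r c * V.comp w ≠ 0 := mul_ne_zero h0 hVw
  simp only [h0, h1, false_or]
  refine forall_congr' fun β => ?_
  rw [rootMultiplicity_mul h1, rootMultiplicity_comp' hw hV]

theorem hw1_of_Crd {T : Set ℝ} (hc : Crd P T w G) (hP : 0 < P.natDegree) :
    ∀ A B : ℂ[X], IsCoprime A B → B ≠ 0 → RealOn P T A B → ∀ β : ℂ, (w.eval β).im ≠ 0 →
      rootMultiplicity β (P - C (P.eval β)) ∣ rootMultiplicity β B := by
  intro A B h1 h2 h3 β hβ
  obtain ⟨V, hV, hBV⟩ := hc.pole A B h1 h2 h3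
  have h4 : rootMultiplicity (w.eval β) (derivative G) = 0 :=
    rootMultiplicity_eq_zero fun h => hβ (hc.crit _ h)
  rw [hc.mult_P hP, h4, zero_add, mul_one, hBV β]
  exact dvd_mul_right _ _

/-- Dividing by one more linear factor decreases the dimension by at most one. -/
theorem Nv_step (h : Pell D P Q r) (hc : Crd P (TT γ P) w G) (b₀ : ℂ) (V₁ : ℂ[X]) (hV₁ : V₁ ≠ 0)
    (y : ℂ) (hy : G.eval y ^ 2 ≠ 1) :
    finrank ℝ (Nv γ P Q r b₀ w ((X - C y) * V₁)) ≤ finrank ℝ (Nv γ P Q r b₀ w V₁) + 1 := by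
  have hr := h.r_ne
  have hw := hc.hw
  have hXy : (X - C y : ℂ[X]) ≠ 0 := X_sub_C_ne_zero y
  have hV : (X - C y) * V₁ ≠ 0 := mul_ne_zero hXy hV₁
  have hmV : ∀ v : ℂ, v ≠ y → rootMultiplicity v ((X - C y) * V₁) = rootMultiplicity v V₁ := by
    intro v hv
    rw [rootMultiplicity_mul hV, rootMultiplicity_eq_zero (p := X - C y), zero_add]
    rw [IsRoot.def, eval_sub, eval_X, eval_C, sub_eq_zero]
    exact hv
  have hmVy : rootMultiplicity y ((X - C y) * V₁) = rootMultiplicity y V₁ + 1 := by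
    rw [rootMultiplicity_mul hV, rootMultiplicity_X_sub_C_self, add_comm]
  by_cases hle : Nv γ P Q r b₀ w ((X - C y) * V₁) ≤ Nv γ P Q r b₀ w V₁
  · exact (Submodule.finrank_mono hle).trans (Nat.le_succ _)
  obtain ⟨c₀, hc₀, hc₀'⟩ := SetLike.not_le_iff_exists.1 hle
  have hc₀2 := (mem_Nv_iff γ hr hw hV).1 hc₀
  rw [mem_Nv_iff γ hr hw hV₁] at hc₀'
  push Not at hc₀'
  obtain ⟨hc01, hc02⟩ := hc₀2
  obtain ⟨hR₀, β, hβ⟩ := hc₀' hc01
  have hc03 := (hc02.resolve_left hR₀) β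
  have hwβ : w.eval β = y := by
    by_contra hne
    rw [hmV _ hne] at hc03
    omega
  rw [hwβ] at hβ hc03
  rw [hmVy] at hc03
  obtain ⟨k, hk⟩ : ∃ k, rootMultiplicity y V₁ = k := ⟨_, rfl⟩
  rw [hk] at hβ hc03
  have hPβ : P.eval β ^ 2 ≠ 1 := by
    rw [hc.eval_eq, hwβ]
    exact hy
  have hθ0 := realTheta γ h hc01
  have hm := mw_pos hw β
  obtain ⟨i, hi0, hi⟩ := order_fibre hc h hθ0 hR₀ hPβ (by omega)
  have hiβ := hi β rfl
  have hik : i = k + 1 := by
    have h1 : k < i := by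
      by_contra h2
      have h3 := Nat.mul_le_mul_left (mw w β) (not_lt.1 h2)
      omega
    have h2 : i ≤ k + 1 := by
      by_contra h3
      have h4 : mw w β * (k + 1 + 1) ≤ mw w β * i := Nat.mul_le_mul_left _ (not_le.1 h3)
      rw [mul_add _ (k + 1) 1] at h4
      omega
    omega
  obtain ⟨a, ha⟩ : ∃ a, rootMultiplicity β (Rc γ r c₀) = a := ⟨_, rfl⟩
  obtain ⟨J, hJ⟩ : ∃ J, mw w β * i = J := ⟨_, rfl⟩
  rw [ha, hJ] at hiβ
  have hJ0 : 0 < J := by
    rw [← hJ]
    exact Nat.mul_pos hm hi0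
  obtain ⟨r₁, hr₁, -⟩ := exists_eq_pow_rootMultiplicity_mul_and_not_dvd r hr β
  obtain ⟨S₀, hS₀, hS₀β⟩ := exists_eq_pow_rootMultiplicity_mul_and_not_dvd _ hR₀ β
  rw [ha] at hS₀
  rw [← hiβ] at hr₁
  have hS₀β' : S₀.eval β ≠ 0 := fun h2 => hS₀β (dvd_iff_isRoot.2 h2)
  have hst : r = (X - C β) ^ a * ((X - C β) ^ J * r₁) := by
    rw [← mul_assoc, ← pow_add]
    exact hr₁
  have htβ : ((X - C β) ^ J * r₁).eval β = 0 := by
    rw [eval_mul, eval_pow, eval_sub, eval_X, eval_C, sub_self, zero_pow hJ0.ne', zero_mul]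
  rw [hS₀] at hθ0
  have hle2 : Nv γ P Q r b₀ w ((X - C y) * V₁) ≤ Nv γ P Q r b₀ w V₁ ⊔ Submodule.span ℝ {c₀} := by
    intro c hcc
    obtain ⟨hc1, hc2⟩ := (mem_Nv_iff γ hr hw hV).1 hcc
    obtain ⟨S, hS⟩ : (X - C β) ^ a ∣ Rc γ r c := by
      rcases hc2 with h0 | h0
      · rw [h0]
        exact dvd_zero _
      · rcases eq_or_ne (Rc γ r c) 0 with h1 | h1
        · rw [h1]
          exact dvd_zero _
        rw [← le_rootMultiplicity_iff h1]
        have h2 := h0 β
        rw [hwβ, hmVy, hk, ← hik, hJ] at h2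
        omega
    have hθ := realTheta γ h hc1
    rw [hS] at hθ
    obtain ⟨-, lam, hlam⟩ := local_real h (hw1_of_Crd hc h.deg) hc.val hPβ hst htβ hθ0 hθ hS₀β'
    have hmem : c - lam • c₀ ∈ Nv γ P Q r b₀ w ((X - C y) * V₁) :=
      Submodule.sub_mem _ hcc (Submodule.smul_mem _ lam hc₀)
    have hR' : Rc γ r (c - lam • c₀) = (X - C β) ^ a * (S - C (lam : ℂ) * S₀) := by
      have h2 : c - lam • c₀ = c + (-lam) • c₀ := by rw [neg_smul, sub_eq_add_neg]
      rw [h2, Rc_add, Rc_smul, hS, hS₀]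
      push_cast
      rw [C_neg]
      ring
    have hdvd : (X - C β) ^ (a + 1) ∣ Rc γ r (c - lam • c₀) := by
      rw [hR', pow_succ]
      refine mul_dvd_mul_left _ (dvd_iff_isRoot.2 ?_)
      rw [IsRoot.def, eval_sub, eval_mul, eval_C, hlam, sub_self]
    have h1 : c - lam • c₀ ∈ Nv γ P Q r b₀ w V₁ := by
      obtain ⟨hm1, hm2⟩ := (mem_Nv_iff γ hr hw hV).1 hmem
      refine (mem_Nv_iff γ hr hw hV₁).2 ⟨hm1, ?_⟩
      rcases eq_or_ne (Rc γ r (c - lam • c₀)) 0 with h0 | h0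
      · exact Or.inl h0
      have hm3 := hm2.resolve_left h0
      refine Or.inr fun β' => ?_
      by_cases hβ'y : w.eval β' = y
      · by_cases hlt : rootMultiplicity β' r ≤ rootMultiplicity β' (Rc γ r (c - lam • c₀))
        · exact hlt.trans (Nat.le_add_right _ _)
        have hPβ' : P.eval β' ^ 2 ≠ 1 := by
          rw [hc.eval_eq, hβ'y]
          exact hy
        obtain ⟨i', hi'0, hi'⟩ := order_fibre hc h (realTheta γ h hm1) h0 hPβ' (not_le.1 hlt)
        have h3 := hi' β (by rw [hwβ, hβ'y])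
        have h4 := hi' β' rfl
        have h5 := (le_rootMultiplicity_iff h0).2 hdvd
        have h6 : i' ≤ k := by
          by_contra h7
          have h8 : mw w β * (k + 1) ≤ mw w β * i' := Nat.mul_le_mul_left _ (not_le.1 h7)
          rw [← hik, hJ] at h8
          omega
        have h7 : mw w β' * i' ≤ mw w β' * k := Nat.mul_le_mul_left _ h6
        rw [hβ'y, hk]
        omega
      · have h3 := hm3 β'
        rw [hmV _ hβ'y] at h3
        exact h3
    have h2 : c = (c - lam • c₀) + lam • c₀ := by rw [sub_add_cancel]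
    rw [h2]
    exact Submodule.add_mem_sup h1 (Submodule.smul_mem _ lam (Submodule.mem_span_singleton_self _))
  refine (Submodule.finrank_mono hle2).trans ?_
  refine (Submodule.finrank_add_le_finrank_add_finrank _ _).trans ?_
  have hc₀ne : c₀ ≠ 0 := by
    rintro rfl
    exact hR₀ (by
      have h := Rc_smul (r := r) γ 0 0
      rwa [zero_smul, Complex.ofReal_zero, C_0, zero_mul] at h)
  rw [finrank_span_singleton hc₀ne]

/-- the critical points of `G` with critical values outside of `[-1, 1]` -/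
noncomputable def bad (G : ℂ[X]) : Multiset ℂ := by
  classical
  exact (derivative G).roots.filter fun v => 1 < |(G.eval v).re|

theorem count_bad (G : ℂ[X]) {v : ℂ} (hv : 1 < |(G.eval v).re|) :
    (by classical exact (bad G).count v) = rootMultiplicity v (derivative G) := by
  classical
  unfold bad
  rw [Multiset.count_filter_of_pos (p := fun v => 1 < |(G.eval v).re|) hv, count_roots]

theorem of_mem_bad {G : ℂ[X]} {v : ℂ} (hv : v ∈ bad G) : 1 < |(G.eval v).re| := by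
  classical
  unfold bad at hv
  exact (Multiset.mem_filter.1 hv).2

theorem ann_le (hD : Squarefree D) (h : Pell D P Q r) (hc : Crd P (TT γ P) w G)
    (hoff : ∀ l β, r.eval β = 0 → (γ l).Off β) (b₀ : ℂ) :
    Ann (Spc γ P) (vec γ P Q) b₀ ≤ Nv γ P Q r b₀ w ((bad G).map fun v => X - C v).prod := by
  classical
  have hr := h.r_ne
  have hw := hc.hw
  have hV : ((bad G).map fun v => (X - C v : ℂ[X])).prod ≠ 0 := by
    refine Multiset.prod_ne_zero fun h0 => ?_
    obtain ⟨v, -, hv⟩ := Multiset.mem_map.1 h0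
    exact X_sub_C_ne_zero v hv
  intro c hc1
  refine (mem_Nv_iff γ hr hw hV).2 ⟨hc1, ?_⟩
  rcases eq_or_ne (Rc γ r c) 0 with h0 | h0
  · exact Or.inl h0
  refine Or.inr fun β => ?_
  by_cases hle : rootMultiplicity β r ≤ rootMultiplicity β (Rc γ r c)
  · exact hle.trans (Nat.le_add_right _ _)
  have hlt := not_le.1 hle
  -- the critical value is not in `[-1, 1]`
  have hval : ¬ ((P.eval β).im = 0 ∧ |(P.eval β).re| ≤ 1) := by
    rintro ⟨h1, h2⟩
    obtain ⟨r₁, hr₁, -⟩ := exists_eq_pow_rootMultiplicity_mul_and_not_dvd r hr β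
    obtain ⟨S, hS, hSβ⟩ := exists_eq_pow_rootMultiplicity_mul_and_not_dvd _ h0 β
    obtain ⟨J, hJ⟩ : ∃ J, rootMultiplicity β r = rootMultiplicity β (Rc γ r c) + J :=
      ⟨rootMultiplicity β r - rootMultiplicity β (Rc γ r c), by omega⟩
    refine hSβ (dvd_iff_isRoot.2 (eval_eq_zero_of_abs_le γ hD h hoff hc1
      (s := (X - C β) ^ rootMultiplicity β (Rc γ r c)) (t := (X - C β) ^ J * r₁) ?_ ?_ hS h1 h2))
    · rw [← mul_assoc, ← pow_add, ← hJ]
      exact hr₁
    · rw [eval_mul, eval_pow, eval_sub, eval_X, eval_C, sub_self, zero_pow (by omega), zero_mul]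
  have hPβ : P.eval β ^ 2 ≠ 1 := by
    intro h1
    have h2 : (P.eval β - 1) * (P.eval β + 1) = 0 := by linear_combination h1
    refine hval ?_
    rcases mul_eq_zero.1 h2 with h3 | h3
    · rw [sub_eq_zero.1 h3]
      simp
    · rw [eq_neg_of_add_eq_zero_left h3]
      simp
  obtain ⟨i, hi0, hi⟩ := order_fibre hc h (realTheta γ h hc1) h0 hPβ hlt
  have h1 := hi β rfl
  have h2 := hc.mult_r h hPβ
  have hm := mw_pos hw β
  have h3 : i ≤ rootMultiplicity (w.eval β) (derivative G) := by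
    by_contra h4
    have h5 := Nat.mul_le_mul_left (mw w β) (not_le.1 h4)
    rw [Nat.succ_eq_add_one] at h5
    omega
  have h4 : (derivative G).eval (w.eval β) = 0 :=
    (rootMultiplicity_pos (hc.derivative_G_ne h.deg)).1 (by omega)
  have h5 : (P.eval β).im = 0 := by
    rw [hc.eval_eq]
    exact hc.im_eval (hc.crit _ h4)
  have h6 : 1 < |(G.eval (w.eval β)).re| := by
    by_contra h7
    refine hval ⟨h5, ?_⟩
    rw [hc.eval_eq]
    exact not_lt.1 h7
  have h7 : rootMultiplicity (w.eval β) ((bad G).map fun v => (X - C v : ℂ[X])).prod =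
      rootMultiplicity (w.eval β) (derivative G) := by
    rw [← count_roots, roots_multiset_prod_X_sub_C]
    exact count_bad G h6
  rw [h7]
  have h8 := Nat.mul_le_mul_left (mw w β) h3
  omega

theorem Nv_one (h : Pell D P Q r) (b₀ : ℂ)
    (hind : ∀ c : Fin m → ℝ, c ≠ 0 → ∃ j < r.natDegree, Ic γ c (X ^ j) ≠ 0) :
    Nv γ P Q r b₀ w 1 = ⊥ := by
  rw [Submodule.eq_bot_iff]
  intro c hc
  by_contra hc0
  obtain ⟨j, hj, hjc⟩ := hind c hc0
  refine hjc (functional_zero (Ic γ c) r h.r_ne ?_ j hj)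
  have h2 := hc.2
  rw [one_comp, mul_one] at h2
  exact Polynomial.eq_zero_of_dvd_of_degree_lt h2 (RR_degree _ _ h.r_ne)

theorem finrank_Nv_le (h : Pell D P Q r) (hc : Crd P (TT γ P) w G) (b₀ : ℂ)
    (hind : ∀ c : Fin m → ℝ, c ≠ 0 → ∃ j < r.natDegree, Ic γ c (X ^ j) ≠ 0) (M : Multiset ℂ)
    (hM : ∀ v ∈ M, G.eval v ^ 2 ≠ 1) :
    finrank ℝ (Nv γ P Q r b₀ w (M.map fun v => X - C v).prod) ≤ Multiset.card M := by
  induction M using Multiset.induction_on with
  | empty =>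
    rw [Multiset.map_zero, Multiset.prod_zero, Nv_one γ h b₀ hind, finrank_bot]
    exact Nat.zero_le _
  | cons a M ih =>
    rw [Multiset.map_cons, Multiset.prod_cons, Multiset.card_cons]
    have hV : (M.map fun v => (X - C v : ℂ[X])).prod ≠ 0 := by
      refine Multiset.prod_ne_zero fun h0 => ?_
      obtain ⟨v, -, hv⟩ := Multiset.mem_map.1 h0
      exact X_sub_C_ne_zero v hv
    refine (Nv_step γ h hc b₀ _ hV a (hM a (Multiset.mem_cons_self a M))).trans ?_
    exact Nat.succ_le_succ (ih fun v hv => hM v (Multiset.mem_cons_of_mem hv))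

theorem sq_ne_one_of {z : ℂ} (hz : 1 < |z.re|) : z ^ 2 ≠ 1 := by
  intro h1
  have h2 : (z - 1) * (z + 1) = 0 := by linear_combination h1
  rcases mul_eq_zero.1 h2 with h3 | h3
  · rw [sub_eq_zero.1 h3] at hz
    simp at hz
  · rw [eq_neg_of_add_eq_zero_left h3] at hz
    simp at hz

theorem finrank_ann_le (hD : Squarefree D) (h : Pell D P Q r) (hc : Crd P (TT γ P) w G)
    (hoff : ∀ l β, r.eval β = 0 → (γ l).Off β) (b₀ : ℂ)
    (hind : ∀ c : Fin m → ℝ, c ≠ 0 → ∃ j < r.natDegree, Ic γ c (X ^ j) ≠ 0) :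
    finrank ℝ (Ann (Spc γ P) (vec γ P Q) b₀) ≤ Multiset.card (bad G) :=
  (Submodule.finrank_mono (ann_le γ hD h hc hoff b₀)).trans
    (finrank_Nv_le γ h hc b₀ hind _ fun _ hv => sq_ne_one_of (of_mem_bad hv))

/-- The roots over `τ` are real. -/
theorem real_roots (h : Pell D P Q r) (hc : Crd P (TT γ P) w G) {τ : ℝ} (hτ : τ ∈ TT γ P) {v : ℂ}
    (hv : G.eval v = (τ : ℝ)) : v.im = 0 := by
  by_contra him
  obtain ⟨S, hS, hST⟩ := hc.roots
  have hGan : AnalyticAt ℂ (fun z => G.eval z) v := G.differentiable.analyticAt v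
  rcases hGan.eventually_constant_or_nhds_le_map_nhds with h1 | h1
  · have h2 : {z | G.eval z = G.eval v}.Infinite := infinite_of_mem_nhds v h1
    refine hc.G_sub_ne h.deg (G.eval v) (Polynomial.eq_zero_of_infinite_isRoot _ ?_)
    refine h2.mono fun z hz => ?_
    show (G - C (G.eval v)).eval z = 0
    rw [eval_sub, eval_C, sub_eq_zero]
    exact hz
  · have h2 : {z : ℂ | z.im ≠ 0} ∈ 𝓝 v :=
      (isOpen_ne_fun Complex.continuous_im continuous_const).mem_nhds him
    have h3 : (fun z => G.eval z) '' {z : ℂ | z.im ≠ 0} ∈ 𝓝 (G.eval v) :=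
      h1 (image_mem_map h2)
    rw [hv] at h3
    have h4 : ∀ᶠ t : ℝ in 𝓝 τ, ∃ z : ℂ, z.im ≠ 0 ∧ G.eval z = (t : ℂ) := by
      have h5 : Tendsto (fun t : ℝ => (t : ℂ)) (𝓝 τ) (𝓝 (τ : ℂ)) :=
        Complex.continuous_ofReal.tendsto τ
      filter_upwards [h5 h3] with t ht
      obtain ⟨z, hz1, hz2⟩ := ht
      exact ⟨z, hz1, hz2⟩
    have h5 : ∀ᶠ t : ℝ in 𝓝[≠] τ, t ∈ TT γ P \ S := by
      have h6 : ∀ᶠ t : ℝ in 𝓝[≠] τ, t ∉ S := by
        have h7 := hS.isClosed.isOpen_compl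
        have h8 : (S \ {τ})ᶜ ∈ 𝓝 τ :=
          (hS.sdiff).isClosed.isOpen_compl.mem_nhds (by simp)
        filter_upwards [mem_nhdsWithin_of_mem_nhds h8, self_mem_nhdsWithin] with t ht1 ht2 ht3
        exact ht1 ⟨ht3, ht2⟩
      filter_upwards [h6, mem_nhdsWithin_of_mem_nhds ((isOpen_TT γ P).mem_nhds hτ)] with t ht1 ht2
      exact ⟨ht2, ht1⟩
    obtain ⟨t, ⟨z, hz1, hz2⟩, ht⟩ := ((h4.filter_mono nhdsWithin_le_nhds).and h5).exists
    exact hz1 (hST t ht z hz2)

/-- The polynomial with the roots `bad G`, composed with `w`, divides `r`. -/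
theorem bad_comp_dvd (h : Pell D P Q r) {T : Set ℝ} (hc : Crd P T w G) :
    ((bad G).map fun v => X - C v).prod.comp w ∣ r := by
  classical
  have hr := h.r_ne
  have hw := hc.hw
  have hV : ((bad G).map fun v => (X - C v : ℂ[X])).prod ≠ 0 := by
    refine Multiset.prod_ne_zero fun h0 => ?_
    obtain ⟨v, -, hv⟩ := Multiset.mem_map.1 h0
    exact X_sub_C_ne_zero v hv
  refine (dvd_iff_mult (comp_ne hw hV)).2 (Or.inr fun β => ?_)
  rw [rootMultiplicity_comp' hw hV]
  by_cases h6 : 1 < |(G.eval (w.eval β)).re|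
  · have h7 : rootMultiplicity (w.eval β) ((bad G).map fun v => (X - C v : ℂ[X])).prod =
        rootMultiplicity (w.eval β) (derivative G) := by
      rw [← count_roots, roots_multiset_prod_X_sub_C]
      exact count_bad G h6
    have hPβ : P.eval β ^ 2 ≠ 1 := by
      rw [hc.eval_eq]
      exact sq_ne_one_of h6
    have h2 := hc.mult_r h hPβ
    have hm := mw_pos hw β
    rw [h7]
    rw [mul_add, mul_one] at h2
    omega
  · have h7 : rootMultiplicity (w.eval β) ((bad G).map fun v => (X - C v : ℂ[X])).prod = 0 := by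
      rw [← count_roots, roots_multiset_prod_X_sub_C, Multiset.count_eq_zero]
      exact fun h8 => h6 (of_mem_bad h8)
    rw [h7, mul_zero]
    exact Nat.zero_le _

theorem card_bad_mul_le (h : Pell D P Q r) {T : Set ℝ} (hc : Crd P T w G) :
    Multiset.card (bad G) * w.natDegree ≤ r.natDegree := by
  have h1 := natDegree_le_of_dvd (bad_comp_dvd h hc) h.r_ne
  rwa [natDegree_comp, natDegree_multiset_prod_X_sub_C_eq_card] at h1

/-- *Main theorem of this folder.* -/
theorem core' (hD : Squarefree D) (h : Pell D P Q r)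
    (hoff : ∀ l β, r.eval β = 0 → (γ l).Off β) (hT' : (TT γ P).Nonempty)
    (hind : ∀ c : Fin m → ℝ, c ≠ 0 → ∃ j < r.natDegree, Ic γ c (X ^ j) ≠ 0) {n κ : ℕ}
    (hκ : ∀ w G : ℂ[X], Crd P (TT γ P) w G → Multiset.card (bad G) ≤ κ)
    (hn : n + κ = m) :
    ∃ b : Fin (n + 1) → ℂ, (∀ k l, (γ l).Off (b k)) ∧ (∀ k, Special P (b k)) ∧
      LinearIndependent ℝ fun k : Fin n => fun l =>
        (γ l).rho P Q (b k.succ) - (γ l).rho P Q (b 0) := by
  obtain ⟨b₀, hb₀⟩ := Spc_nonempty γ h hT'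
  obtain ⟨w, G, hc⟩ := exists_Crd h.deg (TT_infinite γ hT')
  have h1 := (finrank_ann_le γ hD h hc hoff b₀ hind).trans (hκ w G hc)
  obtain ⟨b, hb, hli⟩ := exists_indep (Spc γ P) (vec γ P Q) b₀ hn h1
  refine ⟨Fin.cons b₀ b, ?_, ?_, ?_⟩
  · intro k
    refine Fin.cases ?_ (fun j => ?_) k
    · exact hb₀.1
    · exact (hb j).1
  · intro k
    refine Fin.cases ?_ (fun j => ?_) k
    · exact hb₀.2
    · exact (hb j).2
  · have h3 : (fun k : Fin n => fun l => (γ l).rho P Q ((Fin.cons b₀ b : Fin (n + 1) → ℂ) k.succ) -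
        (γ l).rho P Q ((Fin.cons b₀ b : Fin (n + 1) → ℂ) 0)) =
        fun j => vec γ P Q (b j) - vec γ P Q b₀ := by
      funext j l
      rw [Fin.cons_succ, Fin.cons_zero]
      rfl
    rw [h3]
    exact hli

/-- The number of the bad critical points in terms of a real polynomial. -/
theorem exists_real_poly (h : Pell D P Q r) (hc : Crd P (TT γ P) w G) :
    ∃ G₀ : ℝ[X], P = (G₀.map (algebraMap ℝ ℂ)).comp w ∧ (∀ t ∈ TT γ P, (G₀ - C t).Splits) ∧
      Multiset.card ((derivative G₀).roots.filter fun y => 1 < |G₀.eval y|) =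
        Multiset.card (bad G) := by
  classical
  have hl : G ∈ lifts (algebraMap ℝ ℂ) := by
    rw [lifts_iff_coeff_lifts]
    intro i
    have h1 := congrArg (fun p : ℂ[X] => p.coeff i) hc.real
    simp only [coeff_map] at h1
    exact ⟨(G.coeff i).re, Complex.ext rfl (Complex.conj_eq_iff_im.1 h1).symm⟩
  obtain ⟨G₀, hG₀⟩ := (mem_lifts G).1 hl
  have hev : ∀ x : ℝ, G.eval (x : ℂ) = (G₀.eval x : ℝ) := by
    intro x
    rw [← hG₀, eval_map]
    exact eval₂_at_apply (algebraMap ℝ ℂ) x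
  refine ⟨G₀, ?_, ?_, ?_⟩
  · rw [hG₀]
    exact hc.comp
  · intro t ht
    refine Splits.of_splits_map (algebraMap ℝ ℂ) (IsAlgClosed.splits _) fun a ha => ?_
    have h1 : (G₀ - C t).map (algebraMap ℝ ℂ) = G - C (t : ℂ) := by
      rw [Polynomial.map_sub, map_C, hG₀]
      rfl
    rw [h1, mem_roots (hc.G_sub_ne h.deg _), IsRoot.def, eval_sub, eval_C, sub_eq_zero] at ha
    exact ⟨a.re, Complex.ext rfl (real_roots γ h hc ht ha).symm⟩
  · have h1 : (derivative G₀).Splits := by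
      refine Splits.of_splits_map (algebraMap ℝ ℂ) (IsAlgClosed.splits _) fun a ha => ?_
      rw [← derivative_map, hG₀, mem_roots (hc.derivative_G_ne h.deg)] at ha
      exact ⟨a.re, Complex.ext rfl (hc.crit a ha).symm⟩
    have h2 := h1.roots_map (algebraMap ℝ ℂ)
    rw [← derivative_map, hG₀] at h2
    unfold bad
    rw [h2, Multiset.filter_map, Multiset.card_map]
    congr 1
    refine Multiset.filter_congr fun x _ => ?_
    show 1 < |G₀.eval x| ↔ 1 < |(G.eval ((x : ℝ) : ℂ)).re|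
    rw [hev, Complex.ofReal_re]

end Pool.Agent.J4.H9.PR
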