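import Pool.Agent.J4.H9.PR.Dim
set_option autoImplicit false

/-!
The number of the critical points of a real left composition factor of `P` with critical values
outside of `[-1, 1]`: a bound by the genus, and the family `P = x ^ n + c`.
-/

namespace Pool.Agent.J4.H9.PR

open Polynomial Filter Module Pool.Agent.Y94.R

variable {D P Q r w : ℂ[X]} {G : ℝ[X]}

/-- the critical points of the real polynomial `G` with critical values outside of `[-1, 1]` -/
noncomputable def crt (G : ℝ[X]) : Multiset ℝ := by
  classical
  exact (derivative G).roots.filter fun y => 1 < |G.eval y|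

theorem mem_crt {y : ℝ} : y ∈ crt G ↔ y ∈ (derivative G).roots ∧ 1 < |G.eval y| := by
  classical
  unfold crt
  rw [Multiset.mem_filter]

theorem mult_comp_add_one (hw : 0 < w.natDegree) {G : ℂ[X]} (hG : 0 < G.natDegree) (β : ℂ) :
    rootMultiplicity β (G.comp w - C ((G.comp w).eval β)) =
      mw w β * (rootMultiplicity (w.eval β) (derivative G) + 1) := by
  have h1 : G.comp w - C ((G.comp w).eval β) = (G - C (G.eval (w.eval β))).comp w := by
    rw [sub_comp, C_comp, eval_comp]
  have h2 : IsRoot (G - C (G.eval (w.eval β))) (w.eval β) := by simp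
  have h3 := derivative_rootMultiplicity_of_root h2
  rw [derivative_sub, derivative_C, sub_zero] at h3
  have h4 := (rootMultiplicity_pos (sub_C_ne hG _)).2 h2
  rw [h1, rootMultiplicity_comp' hw (sub_C_ne hG _), h3]
  congr 1
  omega

/-- The real composition factor has at most `g / deg w` such critical points. -/
theorem card_crt_mul_le (h : Pell D P Q r) (hP : P = (G.map (algebraMap ℝ ℂ)).comp w) :
    Multiset.card (crt G) * w.natDegree ≤ r.natDegree := by
  classical
  have hdeg := congrArg natDegree hP
  rw [natDegree_comp] at hdeg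
  have hdP := h.deg
  have hw : 0 < w.natDegree := by
    by_contra h1
    rw [Nat.eq_zero_of_not_pos h1, mul_zero] at hdeg
    omega
  have hG : 0 < (G.map (algebraMap ℝ ℂ)).natDegree := by
    by_contra h1
    rw [Nat.eq_zero_of_not_pos h1, zero_mul] at hdeg
    omega
  have hG' : derivative (G.map (algebraMap ℝ ℂ)) ≠ 0 := by
    rw [Ne, derivative_eq_zero]
    omega
  set M : Multiset ℂ := (crt G).map (algebraMap ℝ ℂ) with hM
  have hMle : ∀ v, M.count v ≤ rootMultiplicity v (derivative (G.map (algebraMap ℝ ℂ))) := by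
    intro v
    rw [← count_roots]
    refine Multiset.count_le_of_le v ?_
    rw [derivative_map]
    refine le_trans (Multiset.map_le_map ?_)
      (map_roots_le (p := derivative G) (f := algebraMap ℝ ℂ) (by rwa [← derivative_map]))
    unfold crt
    exact Multiset.filter_le _ _
  have hMbad : ∀ v ∈ M, (G.map (algebraMap ℝ ℂ)).eval v ^ 2 ≠ 1 := by
    intro v hv
    obtain ⟨y, hy, rfl⟩ := Multiset.mem_map.1 hv
    refine sq_ne_one_of ?_
    rw [eval_map, eval₂_at_apply]
    exact (mem_crt.1 hy).2
  have hV : (M.map fun v => (X - C v : ℂ[X])).prod ≠ 0 := by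
    refine Multiset.prod_ne_zero fun h0 => ?_
    obtain ⟨v, -, hv⟩ := Multiset.mem_map.1 h0
    exact X_sub_C_ne_zero v hv
  have hdvd : (M.map fun v => (X - C v : ℂ[X])).prod.comp w ∣ r := by
    refine (dvd_iff_mult (comp_ne hw hV)).2 (Or.inr fun β => ?_)
    rw [rootMultiplicity_comp' hw hV, ← count_roots, roots_multiset_prod_X_sub_C]
    by_cases h6 : w.eval β ∈ M
    · have h7 := hMbad _ h6
      have hPβ : P.eval β ^ 2 ≠ 1 := by
        rw [hP, eval_comp]
        exact h7
      have h2 := mult_comp_add_one hw hG β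
      rw [← hP, h.mult β, rootMultiplicity_eq_zero (p := Q) (h.ne_of_sq_ne hPβ).2, mul_add,
        mul_one] at h2
      have hm := mw_pos hw β
      have h8 := Nat.mul_le_mul_left (mw w β) (hMle (w.eval β))
      omega
    · rw [Multiset.count_eq_zero.2 h6, mul_zero]
      exact Nat.zero_le _
  have h1 := natDegree_le_of_dvd hdvd h.r_ne
  rw [natDegree_comp, natDegree_multiset_prod_X_sub_C_eq_card] at h1
  have h2 : Multiset.card M = Multiset.card (crt G) := by rw [hM, Multiset.card_map]
  rwa [h2] at h1

/-- The family `P = x ^ n + c`. -/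
theorem crt_family {n : ℕ} (hn : 0 < n) {c : ℂ}
    (hP : (X ^ n + C c : ℂ[X]) = (G.map (algebraMap ℝ ℂ)).comp w) {τ : ℝ} (hτ : |τ| < 1)
    (hG : (G - C τ).Splits) :
    Multiset.card (crt G) ≤ 1 ∧ (Odd n → crt G = 0) := by
  classical
  have hdeg := congrArg natDegree hP
  rw [natDegree_comp, natDegree_X_pow_add_C, natDegree_map] at hdeg
  rcases eq_or_ne (crt G) 0 with h0 | h0
  · rw [h0]
    exact ⟨Nat.zero_le _, fun _ => rfl⟩
  obtain ⟨y₀, hy₀⟩ := Multiset.exists_mem_of_ne_zero h0
  have hG' : derivative G ≠ 0 := by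
    intro h1
    have h2 := (mem_crt.1 hy₀).1
    rw [h1, roots_zero] at h2
    exact Multiset.notMem_zero _ h2
  -- the critical points
  have hcr : ∀ y : ℝ, (derivative G).eval y = 0 → (y : ℂ) = w.eval 0 := by
    intro y hy
    have hw : 0 < w.natDegree := by
      by_contra h1
      rw [Nat.eq_zero_of_not_pos h1, mul_zero] at hdeg
      omega
    obtain ⟨x, hx⟩ := exists_eval_eq hw (y : ℂ)
    have h1 := congrArg (Polynomial.eval x) (congrArg derivative hP)
    rw [derivative_comp, eval_mul, eval_comp, hx, derivative_map, derivative_add, derivative_X_pow,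
      derivative_C, add_zero, eval_mul, eval_map] at h1
    have h2 : eval₂ (algebraMap ℝ ℂ) (y : ℂ) (derivative G) = 0 := by
      have h3 := eval₂_at_apply (p := derivative G) (algebraMap ℝ ℂ) y
      rw [hy, map_zero] at h3
      exact h3
    rw [h2, mul_zero, eval_pow, eval_X, eval_C] at h1
    have h3 : (n : ℂ) ≠ 0 := by exact_mod_cast hn.ne'
    have h4 := (mul_eq_zero.1 h1).resolve_left h3
    rw [← hx, eq_zero_of_pow_eq_zero h4]
  have hy₀' : (y₀ : ℂ) = w.eval 0 := hcr y₀ ((mem_roots hG').1 (mem_crt.1 hy₀).1)
  have huniq : ∀ y : ℝ, (derivative G).eval y = 0 → y = y₀ := by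
    intro y hy
    have h1 := (hcr y hy).trans hy₀'.symm
    exact_mod_cast h1
  have hval : G.eval y₀ ≠ τ := by
    intro h1
    have h2 := (mem_crt.1 hy₀).2
    rw [h1] at h2
    linarith
  -- the roots over `τ` are simple
  have hGτ : G - C τ ≠ 0 := by
    intro h1
    apply hG'
    rw [sub_eq_zero.1 h1, derivative_C]
  have hnd : (G - C τ).roots.Nodup := by
    rw [Multiset.nodup_iff_count_le_one]
    intro a
    rw [count_roots]
    by_contra h1
    have h2 : 1 < rootMultiplicity a (G - C τ) := not_le.1 h1
    have h3 := (one_lt_rootMultiplicity_iff_isRoot hGτ).1 h2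
    obtain ⟨h5, h4⟩ := h3
    rw [derivative_sub, derivative_C, sub_zero] at h4
    rw [IsRoot.def, eval_sub, eval_C, sub_eq_zero] at h5
    rw [huniq a h4] at h5
    exact hval h5
  have hcard : G.natDegree = (G - C τ).roots.toFinset.card := by
    rw [Multiset.toFinset_card_of_nodup hnd, ← hG.natDegree_eq_card_roots, natDegree_sub_C]
  have hle := card_roots_toFinset_le_derivative (G - C τ)
  rw [derivative_sub, derivative_C, sub_zero, ← hcard] at hle
  have hle2 : (derivative G).roots.toFinset ⊆ {y₀} := by
    intro a ha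
    rw [Multiset.mem_toFinset, mem_roots hG'] at ha
    rw [Finset.mem_singleton]
    exact huniq a ha
  have hle3 := Finset.card_le_card hle2
  rw [Finset.card_singleton] at hle3
  have hd2 : G.natDegree ≤ 2 := by omega
  have hcd : Multiset.card (crt G) ≤ G.natDegree - 1 := by
    have h1 : Multiset.card (crt G) ≤ Multiset.card (derivative G).roots := by
      unfold crt
      exact Multiset.card_le_card (Multiset.filter_le _ _)
    refine h1.trans ((card_roots' _).trans (natDegree_derivative_le G))
  refine ⟨by omega, fun hodd => ?_⟩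
  have h1 : G.natDegree ≠ 2 := by
    intro h2
    rw [h2] at hdeg
    rw [hdeg] at hodd
    exact (Nat.not_odd_iff_even.2 (even_two_mul _)) hodd
  rw [← Multiset.card_eq_zero]
  omega

end Pool.Agent.J4.H9.PR
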