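import Pool.Agent.J4.H9.PR.Coord
set_option autoImplicit false

/-!
The orders of the poles of `R / r` in the fibres of `w`.
-/

namespace Pool.Agent.J4.H9.PR

open Polynomial Filter Pool.Agent.Y94.R

open scoped ComplexConjugate

/-- the properties of the real coordinate -/
structure Crd (P : ℂ[X]) (T : Set ℝ) (w G : ℂ[X]) : Prop where
  hw : 0 < w.natDegree
  comp : P = G.comp w
  real : G.map (starRingEnd ℂ) = G
  roots : ∃ S : Set ℝ, S.Finite ∧ ∀ t ∈ T \ S, ∀ v : ℂ, G.eval v = (t : ℝ) → v.im = 0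
  crit : ∀ v : ℂ, (derivative G).eval v = 0 → v.im = 0
  pole : ∀ A B : ℂ[X], IsCoprime A B → B ≠ 0 → RealOn P T A B → ∃ V : ℂ[X], V ≠ 0 ∧
        ∀ β : ℂ, rootMultiplicity β B = mw w β * rootMultiplicity (w.eval β) V
  val : ∀ A B : ℂ[X], IsCoprime A B → B ≠ 0 → RealOn P T A B → ∀ β : ℂ, (w.eval β).im = 0 →
        B.eval β ≠ 0 → ∃ ρ : ℝ, A.eval β = ρ * B.eval β

theorem exists_Crd {P : ℂ[X]} (hP : 0 < P.natDegree) {T : Set ℝ} (hT : T.Infinite) :
    ∃ w G : ℂ[X], Crd P T w G := by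
  obtain ⟨w, G, h1, h2, h3, h4, h5, h6, h7⟩ := exists_coord' hP hT
  exact ⟨w, G, h1, h2, h3, h4, h5, h6, h7⟩

variable {P D Q r w G : ℂ[X]} {T : Set ℝ}

namespace Crd

variable (hc : Crd P T w G)

include hc

theorem eval_eq (β : ℂ) : P.eval β = G.eval (w.eval β) := by
  conv_lhs => rw [hc.comp]
  rw [eval_comp]

theorem im_eval {v : ℂ} (hv : v.im = 0) : (G.eval v).im = 0 := by
  rw [← Complex.conj_eq_iff_im, ← eval_conj_of_real G hv, hc.real]

theorem natDegree_G (hP : 0 < P.natDegree) : 0 < G.natDegree := by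
  have h1 := congrArg natDegree hc.comp
  rw [natDegree_comp] at h1
  by_contra h2
  rw [Nat.eq_zero_of_not_pos h2, zero_mul] at h1
  omega

theorem G_sub_ne (hP : 0 < P.natDegree) (c : ℂ) : G - C c ≠ 0 := sub_C_ne (hc.natDegree_G hP) c

theorem derivative_G_ne (hP : 0 < P.natDegree) : derivative G ≠ 0 := by
  have h := hc.natDegree_G hP
  rw [Ne, derivative_eq_zero]
  omega

theorem mult_P (hP : 0 < P.natDegree) (β : ℂ) : rootMultiplicity β (P - C (P.eval β)) =
    mw w β * (rootMultiplicity (w.eval β) (derivative G) + 1) := by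
  have h1 : P - C (P.eval β) = (G - C (G.eval (w.eval β))).comp w := by
    rw [sub_comp, C_comp, ← hc.comp, ← hc.eval_eq]
  have h2 : IsRoot (G - C (G.eval (w.eval β))) (w.eval β) := by simp
  have h3 := derivative_rootMultiplicity_of_root h2
  rw [derivative_sub, derivative_C, sub_zero] at h3
  have h4 := (rootMultiplicity_pos (hc.G_sub_ne hP _)).2 h2
  rw [h1, rootMultiplicity_comp' hc.hw (hc.G_sub_ne hP _), h3]
  congr 1
  omega

theorem mult_r (h : Pell D P Q r) {β : ℂ} (hβ : P.eval β ^ 2 ≠ 1) : rootMultiplicity β r + 1 =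
    mw w β * (rootMultiplicity (w.eval β) (derivative G) + 1) := by
  rw [← hc.mult_P h.deg, h.mult β, rootMultiplicity_eq_zero (p := Q) (h.ne_of_sq_ne hβ).2]

end Crd

/-- the multiplicity of a multiple of a power -/
theorem le_rootMultiplicity_of {p q : ℂ[X]} {β : ℂ} {n : ℕ} (h : p = (X - C β) ^ n * q)
    (hp : p ≠ 0) : n ≤ rootMultiplicity β p :=
  (le_rootMultiplicity_iff hp).2 ⟨q, h⟩

/-- The order of the numerator at a pole of `R / r`. -/
theorem order_WW_pole {n R : ℂ[X]} (hr : r ≠ 0) (hR : R ≠ 0) {β : ℂ} (hD : D.eval β ≠ 0)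
    (hlt : rootMultiplicity β R < rootMultiplicity β r) : WW D r n R ≠ 0 ∧
      rootMultiplicity β (WW D r n R) + 1 = rootMultiplicity β R + rootMultiplicity β r := by
  obtain ⟨R1, hR1, hR1β⟩ := exists_eq_pow_rootMultiplicity_mul_and_not_dvd R hR β
  obtain ⟨r1, hr1, hr1β⟩ := exists_eq_pow_rootMultiplicity_mul_and_not_dvd r hr β
  obtain ⟨a, ha⟩ : ∃ a, rootMultiplicity β R = a := ⟨_, rfl⟩
  obtain ⟨p', hp'⟩ : ∃ p', rootMultiplicity β r = a + (p' + 1) :=
    ⟨rootMultiplicity β r - a - 1, by omega⟩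
  rw [ha] at hR1
  rw [hp'] at hr1
  have hR1' : R1.eval β ≠ 0 := fun h2 => hR1β (dvd_iff_isRoot.2 h2)
  have hr1' : r1.eval β ≠ 0 := fun h2 => hr1β (dvd_iff_isRoot.2 h2)
  obtain ⟨W1, hW1, hW1β⟩ := exists_WW D r1 n R1 β p'
  have hW1' : W1.eval β ≠ 0 := by
    rw [hW1β]
    refine neg_ne_zero.2 (mul_ne_zero (mul_ne_zero (mul_ne_zero hD hR1') ?_) hr1')
    exact_mod_cast Nat.succ_ne_zero p'
  have h1 : WW D r n R = (X - C β) ^ (2 * a + p') * W1 := by
    have h2 : r = (X - C β) ^ a * ((X - C β) ^ (p' + 1) * r1) := by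
      rw [← mul_assoc, ← pow_add]
      exact hr1
    rw [h2, hR1, WW_mul, hW1, pow_add, ← pow_mul]
    ring
  obtain ⟨h2, h3⟩ := rootMultiplicity_eq_of h1 hW1'
  refine ⟨h2, ?_⟩
  rw [h3, ha, hp']
  omega

/-- The order of the numerator at the other points. -/
theorem order_WW_reg {n R : ℂ[X]} (hr : r ≠ 0) (hR : R ≠ 0) {β : ℂ} (hW : WW D r n R ≠ 0)
    (hle : rootMultiplicity β r ≤ rootMultiplicity β R) :
      2 * rootMultiplicity β r ≤ rootMultiplicity β (WW D r n R) := by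
  obtain ⟨R1, hR1, -⟩ := exists_eq_pow_rootMultiplicity_mul_and_not_dvd R hR β
  obtain ⟨r1, hr1, -⟩ := exists_eq_pow_rootMultiplicity_mul_and_not_dvd r hr β
  obtain ⟨e, he⟩ : ∃ e, rootMultiplicity β r = e := ⟨_, rfl⟩
  obtain ⟨q, hq⟩ : ∃ q, rootMultiplicity β R = e + q := ⟨rootMultiplicity β R - e, by omega⟩
  rw [hq] at hR1
  rw [he] at hr1
  rw [he]
  refine le_rootMultiplicity_of (q := WW D r1 n ((X - C β) ^ q * R1)) ?_ hW
  have h1 : R = (X - C β) ^ e * ((X - C β) ^ q * R1) := by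
    rw [← mul_assoc, ← pow_add]
    exact hR1
  rw [h1, hr1, WW_mul, ← pow_mul, mul_comm e 2]

/-- The orders of the poles in a fibre of `w` are proportional to the multiplicities. -/
theorem order_fibre (hc : Crd P T w G) (h : Pell D P Q r) {n R : ℂ[X]}
    (hθ : RealTheta P T D r n R) (hR : R ≠ 0) {β : ℂ} (hβ : P.eval β ^ 2 ≠ 1)
    (hlt : rootMultiplicity β R < rootMultiplicity β r) :
    ∃ i : ℕ, 0 < i ∧ ∀ β' : ℂ, w.eval β' = w.eval β →
      rootMultiplicity β' R + mw w β' * i = rootMultiplicity β' r := by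
  have hr := h.r_ne
  have hr3 : r ^ 3 ≠ 0 := pow_ne_zero 3 hr
  obtain ⟨hDβ, -⟩ := h.ne_of_sq_ne hβ
  obtain ⟨hW, hWm⟩ := order_WW_pole (n := n) hr hR hDβ hlt
  obtain ⟨g, A, B, hA, hB, hAB, hg⟩ := exists_coprime (WW D r n R) (r ^ 3) hr3
  have hB0 : B ≠ 0 := by
    rintro rfl
    exact hr3 (by rw [hB, mul_zero])
  have hA0 : A ≠ 0 := by
    rintro rfl
    exact hW (by rw [hA, mul_zero])
  have hre : RealOn P T A B := by
    filter_upwards [hθ, eventually_ne (KF_le P T) hg] with b ⟨_, θ, hθ⟩ hgb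
    refine ⟨θ, mul_left_cancel₀ hgb ?_⟩
    have h1 := congrArg (Polynomial.eval b) hB
    rw [eval_pow, eval_mul] at h1
    rw [hA, eval_mul, h1] at hθ
    rw [hθ]
    ring
  have e1 : ∀ b, rootMultiplicity b g + rootMultiplicity b A = rootMultiplicity b (WW D r n R) := by
    intro b
    rw [hA, rootMultiplicity_mul (by rw [← hA]; exact hW)]
  have e2 : ∀ b, rootMultiplicity b g + rootMultiplicity b B = 3 * rootMultiplicity b r := by
    intro b
    rw [← rootMultiplicity_pow' hr, hB, rootMultiplicity_mul (by rw [← hB]; exact hr3)]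
  have e3 : ∀ b, rootMultiplicity b B ≠ 0 → rootMultiplicity b A = 0 := by
    intro b hb
    by_contra h3
    have h4 : A.eval b = 0 := (rootMultiplicity_pos hA0).1 (Nat.pos_of_ne_zero h3)
    exact isCoprime_eval hAB h4 ((rootMultiplicity_pos hB0).1 (Nat.pos_of_ne_zero hb))
  obtain ⟨V, hV, hBV⟩ := hc.pole A B hAB hB0 hre
  obtain ⟨γ, hγ⟩ : ∃ γ, rootMultiplicity (w.eval β) (derivative G) = γ := ⟨_, rfl⟩
  obtain ⟨v, hv⟩ : ∃ v, rootMultiplicity (w.eval β) V = v := ⟨_, rfl⟩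
  have e4 := hc.mult_r h hβ
  rw [hγ] at e4
  have e5 := hBV β
  rw [hv] at e5
  have hm := mw_pos hc.hw β
  have e6 : rootMultiplicity β B + rootMultiplicity β R = 2 * rootMultiplicity β r + 1 := by
    have h1 := e1 β
    have h2 := e2 β
    have h3 : rootMultiplicity β B ≠ 0 := by omega
    have h4 := e3 β h3
    omega
  have hv1 : γ + 1 < v := by
    by_contra h1
    have h2 := Nat.mul_le_mul_left (mw w β) (not_lt.1 h1)
    omega
  obtain ⟨i, hi⟩ : ∃ i, v = γ + 1 + i := ⟨v - (γ + 1), by omega⟩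
  refine ⟨i, by omega, fun β' hβ' => ?_⟩
  have hPβ' : P.eval β' ^ 2 ≠ 1 := by
    rw [hc.eval_eq, hβ', ← hc.eval_eq]
    exact hβ
  have e4' := hc.mult_r h hPβ'
  rw [hβ', hγ] at e4'
  have e5' := hBV β'
  rw [hβ', hv, hi, mul_add, ← e4'] at e5'
  have hm' := mw_pos hc.hw β'
  have hmi : 0 < mw w β' * i := Nat.mul_pos hm' (by omega)
  have h1 := e1 β'
  have h2 := e2 β'
  have h4 := e3 β' (by omega)
  by_cases hlt' : rootMultiplicity β' R < rootMultiplicity β' r
  · obtain ⟨-, h5⟩ := order_WW_pole (n := n) hr hR (h.ne_of_sq_ne hPβ').1 hlt'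
    omega
  · have h5 := order_WW_reg (D := D) (n := n) hr hR hW (not_lt.1 hlt')
    omega

end Pool.Agent.J4.H9.PR
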